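import Mathlib
import Pool.Agent.Y268.D3.Stm

/-!
# Project D3, job D3-MAZ: a weak mean is a norm limit of convex combinations
-/

set_option autoImplicit false

open Finset

namespace Pool.Agent.Y455.D3

open Y268.D3

/-- a mean of a function with real part at most `u` has real part at most `u` -/
theorem re_le {S : Type} (E : Mean S) (g : S → ℂ) (K u : ℝ) (hg : ∀ s, ‖g s‖ ≤ K)
    (hu : ∀ s, (g s).re ≤ u) : (E.E g).re ≤ u := by
  by_contra hcon
  push Not at hcon
  have hne : Nonempty S := by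
    by_contra h
    rw [not_nonempty_iff] at h
    have h1 := E.bd (fun _ => 1) 0 (fun s => isEmptyElim s)
    rw [E.one] at h1
    simp at h1
    linarith
  set δ := (E.E g).re - u with hδ
  have hδ0 : 0 < δ := by linarith
  obtain ⟨R, hR⟩ : ∃ R : ℝ, R = |(E.E g).re| + (K ^ 2 + 1) / (2 * δ) := ⟨_, rfl⟩
  have hK2 : 0 ≤ (K ^ 2 + 1) / (2 * δ) := by positivity
  have hR0 : 0 ≤ R := by rw [hR]; positivity
  have hR1 : 0 ≤ (E.E g).re + R := by
    rw [hR]
    have := neg_abs_le (E.E g).re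
    linarith
  have hR2 : K ^ 2 + 1 ≤ 2 * R * δ := by
    have h1 : (K ^ 2 + 1) / (2 * δ) ≤ R := by
      rw [hR]
      have := abs_nonneg (E.E g).re
      linarith
    rw [div_le_iff₀ (by positivity)] at h1
    linarith
  have hsq : ∀ s, ‖g s + (R : ℂ)‖ ^ 2 ≤ K ^ 2 + 2 * R * u + R ^ 2 := by
    intro s
    have h1 : ‖g s + (R : ℂ)‖ ^ 2 = ‖g s‖ ^ 2 + 2 * R * (g s).re + R ^ 2 := by
      rw [← Complex.normSq_eq_norm_sq, ← Complex.normSq_eq_norm_sq, Complex.normSq_apply,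
        Complex.normSq_apply]
      simp only [Complex.add_re, Complex.add_im, Complex.ofReal_re, Complex.ofReal_im]
      ring
    rw [h1]
    have h2 : ‖g s‖ ^ 2 ≤ K ^ 2 := pow_le_pow_left₀ (norm_nonneg _) (hg s) 2
    have h3 : 2 * R * (g s).re ≤ 2 * R * u :=
      mul_le_mul_of_nonneg_left (hu s) (by positivity)
    linarith
  have hb : ∀ s, ‖g s + (R : ℂ)‖ ≤ √(K ^ 2 + 2 * R * u + R ^ 2) := fun s =>
    Real.le_sqrt_of_sq_le (hsq s)
  have h1 := E.bd (fun s => g s + (R : ℂ)) _ hb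
  rw [E.add', E.const] at h1
  have h2 : (E.E g).re + R ≤ √(K ^ 2 + 2 * R * u + R ^ 2) := by
    refine le_trans ?_ h1
    have h3 := Complex.re_le_norm (E.E g + (R : ℂ))
    simpa using h3
  obtain ⟨s0⟩ := hne
  have h3 : 0 ≤ K ^ 2 + 2 * R * u + R ^ 2 := (sq_nonneg _).trans (hsq s0)
  have h4 : ((E.E g).re + R) ^ 2 ≤ K ^ 2 + 2 * R * u + R ^ 2 := by
    calc ((E.E g).re + R) ^ 2 ≤ √(K ^ 2 + 2 * R * u + R ^ 2) ^ 2 := pow_le_pow_left₀ hR1 h2 2
      _ = _ := Real.sq_sqrt h3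
  nlinarith [sq_nonneg (E.E g).re]

theorem prove_mazur : S_mazur := by
  intro S E V _ _ F C hC v hv ε hε
  have hmem : v ∈ closure (convexHull ℝ (Set.range F)) := by
    by_contra hnot
    obtain ⟨f, u, h1, h2⟩ := RCLike.geometric_hahn_banach_closed_point (𝕜 := ℂ)
      ((convex_convexHull ℝ (Set.range F)).closure) isClosed_closure hnot
    have h3 : (E.E (fun s => f (F s))).re ≤ u := by
      refine re_le E _ (‖f‖ * C) u (fun s => ?_) (fun s => ?_)
      · exact (f.le_opNorm _).trans (mul_le_mul_of_nonneg_left (hC s) (norm_nonneg _))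
      · exact (h1 _ (subset_closure (subset_convexHull ℝ _ ⟨s, rfl⟩))).le
    rw [hv f] at h3
    exact absurd h2 (not_lt.2 h3)
  obtain ⟨w, hw, hd⟩ := Metric.mem_closure_iff.1 hmem ε hε
  obtain ⟨ι, _, t, z, ht0, ht1, hz, hsum⟩ := mem_convexHull_iff_exists_fintype.1 hw
  choose s hs using hz
  let e := (Fintype.equivFin ι).symm
  refine ⟨Fintype.card ι, fun i => t (e i), fun i => s (e i), fun i => ht0 _, ?_, ?_⟩
  · rw [← ht1]
    exact Equiv.sum_comp e t
  · have h1 : ∑ i, ((t (e i) : ℝ) : ℂ) • F (s (e i)) = w := by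
      rw [← hsum]
      rw [Equiv.sum_comp e (fun i => ((t i : ℝ) : ℂ) • F (s i))]
      refine Finset.sum_congr rfl fun i _ => ?_
      rw [hs, Complex.coe_smul]
    rw [h1, ← dist_eq_norm, dist_comm]
    exact hd.le

end Pool.Agent.Y455.D3
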